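import Mathlib

namespace Pool.Agent.Results.MP_390115_co.ExpBound

/-- Some ordered set with `m` elements contains every ordered set with at most `n` elements as a
covering subset: an order embedding that sends covers to covers. -/
def Universal (n m : ℕ) : Prop :=
  ∃ (P : Type) (_ : Fintype P) (_ : PartialOrder P), Fintype.card P = m ∧
    ∀ (Q : Type) [Fintype Q] [PartialOrder Q], Fintype.card Q ≤ n →
      ∃ f : Q ↪o P, ∀ x y, x ⋖ y → f x ⋖ f y

/-- `b_n`. -/
noncomputable def b (n : ℕ) : ℕ := sInf {m | Universal n m}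

/-- labels: an index and a set of other indices. -/
def U (n : ℕ) : Type := Σ i : Fin n, Finset {j : Fin n // j ≠ i}

instance (n : ℕ) : Fintype (U n) := inferInstanceAs (Fintype (Σ i : Fin n, Finset {j // j ≠ i}))

/-- membership in a label. -/
def mem {n : ℕ} (p : U n) (k : Fin n) : Prop := k = p.1 ∨ ∃ h : k ≠ p.1, ⟨k, h⟩ ∈ p.2

/-- the strict order on labels. -/
def lt {n : ℕ} (p q : U n) : Prop :=
  p.1 < q.1 ∧ (∀ k ≤ p.1, mem p k → mem q k) ∧ ∀ k, q.1 ≤ k → mem q k → mem p k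

theorem lt_trans' {n : ℕ} {p q r : U n} (h1 : lt p q) (h2 : lt q r) : lt p r :=
  ⟨h1.1.trans h2.1, fun k hk h => h2.2.1 k (hk.trans h1.1.le) (h1.2.1 k hk h),
    fun k hk h => h1.2.2 k (h2.1.le.trans hk) (h2.2.2 k hk h)⟩

instance (n : ℕ) : PartialOrder (U n) where
  le p q := p = q ∨ lt p q
  le_refl p := Or.inl rfl
  le_trans p q r h1 h2 := by
    rcases h1 with rfl | h1
    · exact h2
    · rcases h2 with rfl | h2
      · exact Or.inr h1
      · exact Or.inr (lt_trans' h1 h2)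
  le_antisymm p q h1 h2 := by
    rcases h1 with h1 | h1
    · exact h1
    · rcases h2 with h2 | h2
      · exact h2.symm
      · exact absurd (h1.1.trans h2.1) (lt_irrefl _)

theorem lt_of_lt {n : ℕ} {p q : U n} (h : p < q) : lt p q :=
  Or.resolve_left h.le h.ne

theorem card_U (n : ℕ) : Fintype.card (U n) = n * 2 ^ (n - 1) := by
  show Fintype.card (Σ i : Fin n, Finset {j : Fin n // j ≠ i}) = _
  simp [Fintype.card_sigma, Fintype.card_subtype_compl]

theorem universal (n : ℕ) : Universal n (n * 2 ^ (n - 1)) := by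
  classical
  refine ⟨U n, inferInstance, inferInstance, card_U n, fun Q _ _ hQ => ?_⟩
  letI : Fintype (LinearExtension Q) := ‹Fintype Q›
  let e := Fintype.orderIsoFinOfCardEq (LinearExtension Q) (k := Fintype.card Q) rfl
  let l : Q → Fin n := fun x => Fin.castLE hQ (e.symm (toLinearExtension x))
  have hinj : Function.Injective l := fun x y h => e.symm.injective (Fin.castLE_injective hQ h)
  have hle : ∀ {x y}, x ≤ y → l x ≤ l y := fun h => e.symm.monotone (toLinearExtension.monotone h)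
  have hlt : ∀ {x y}, x < y → l x < l y := fun h => lt_of_le_of_ne (hle h.le) (hinj.ne h.ne)
  let f : Q → U n := fun x =>
    ⟨l x, Finset.univ.filter fun j => ∃ y, l y = j.1 ∧ (y ≤ x ∨ x ≤ y)⟩
  have hmem : ∀ x k, mem (f x) k ↔ ∃ y, l y = k ∧ (y ≤ x ∨ x ≤ y) := by
    intro x k
    constructor
    · rintro (rfl | ⟨h, h'⟩)
      · exact ⟨x, rfl, Or.inl le_rfl⟩
      · exact (Finset.mem_filter.mp h').2
    · intro h
      by_cases hk : k = l x
      · exact Or.inl hk
      · exact Or.inr ⟨hk, Finset.mem_filter.mpr ⟨Finset.mem_univ _, h⟩⟩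
  have below : ∀ x k, k < l x → mem (f x) k → ∃ y, l y = k ∧ y < x := by
    intro x k hk h
    obtain ⟨y, rfl, hy | hy⟩ := (hmem x k).mp h
    · exact ⟨y, rfl, lt_of_le_of_ne hy fun h => hk.ne (congrArg l h)⟩
    · exact absurd (hle hy) (not_le.mpr hk)
  have above : ∀ x k, l x < k → mem (f x) k → ∃ y, l y = k ∧ x < y := by
    intro x k hk h
    obtain ⟨y, rfl, hy | hy⟩ := (hmem x k).mp h
    · exact absurd (hle hy) (not_le.mpr hk)
    · exact ⟨y, rfl, lt_of_le_of_ne hy fun h => hk.ne (congrArg l h)⟩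
  have hf : ∀ x y, f x ≤ f y ↔ x ≤ y := by
    intro x y
    constructor
    · rintro (h | h)
      · exact (hinj (congrArg Sigma.fst h)).le
      · obtain ⟨z, hz, hz'⟩ := below y (l x) h.1 (h.2.1 _ le_rfl (Or.inl rfl))
        exact hinj hz ▸ hz'.le
    · intro h
      rcases h.eq_or_lt with rfl | h
      · exact le_rfl
      refine Or.inr ⟨hlt h, fun k hk hm => ?_, fun k hk hm => ?_⟩
      · rcases hk.eq_or_lt with rfl | hk
        · exact (hmem _ _).mpr ⟨x, rfl, Or.inl h.le⟩
        · obtain ⟨z, hz, hz'⟩ := below x k hk hm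
          exact (hmem _ _).mpr ⟨z, hz, Or.inl (hz'.trans h).le⟩
      · rcases hk.eq_or_lt with rfl | hk
        · exact (hmem _ _).mpr ⟨y, rfl, Or.inr h.le⟩
        · obtain ⟨z, hz, hz'⟩ := above y k hk hm
          exact (hmem _ _).mpr ⟨z, hz, Or.inr (h.trans hz').le⟩
  refine ⟨OrderEmbedding.ofMapLEIff f hf, fun x y hxy =>
    ⟨(OrderEmbedding.ofMapLEIff f hf).strictMono hxy.1, fun p h1 h2 => ?_⟩⟩
  have h1' : lt (f x) p := lt_of_lt h1
  have h2' : lt p (f y) := lt_of_lt h2
  obtain ⟨z, hz, hz'⟩ := above x p.1 h1'.1 (h1'.2.2 _ le_rfl (Or.inl rfl))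
  obtain ⟨w, hw, hw'⟩ := below y p.1 h2'.1 (h2'.2.1 _ le_rfl (Or.inl rfl))
  exact hxy.2 hz' (hinj (hw.trans hz.symm) ▸ hw')

theorem result (n : ℕ) : Universal n (b n) ∧ b n ≤ n * 2 ^ (n - 1) :=
  ⟨Nat.sInf_mem (s := {m | Universal n m}) ⟨_, universal n⟩,
    Nat.sInf_le (s := {m | Universal n m}) (universal n)⟩

end Pool.Agent.Results.MP_390115_co.ExpBound
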